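import Pool.Agent.W763.PB.Stm

/-! PB-STEP: existence of the next level. -/

set_option autoImplicit false
open MeasureTheory Filter Topology
open scoped InnerProductSpace BoundedContinuousFunction

namespace Pool.Agent.W863.PB

open Pool.Agent.W763.PB

theorem step : S_J1 → S_J2 → S_J3 → S_J4 → S_G1 → S_G2 → S_G3 → S_G4 → S_STEP := by
  intro h1 h2 h3 h4 g1 g2 g3 g4 k b m hk hb hm H _ _ _ U D hL
  have hb0 : b ≠ 0 := by
    rintro rfl
    have : (0 : ℝ) < 16 * k ^ 2 := by positivity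
    simp at hb
    nlinarith
  have : NeZero b := ⟨hb0⟩
  have : NeZero m := ⟨by omega⟩
  obtain ⟨j1, -, -, -, -⟩ := h1 k b m hk hb H U
  obtain ⟨-, -, sa, com⟩ := h3 k b m hk hb H U D hL
  obtain ⟨lo, up, -, -, -, -⟩ := h4 k b m hk hb H U D hL
  let J : H →ₗᵢ[ℂ] Sp b m H := ⟨(Jop k b m U : H →ₗ[ℂ] Sp b m H), j1⟩
  have hJ : ∀ x, J x = Jop k b m U x := fun _ => rfl
  refine ⟨Sp b m H, inferInstance, inferInstance, inferInstance, Ush b m, Dop k b m U D, J,
    ?_, sa, lo, up, ?_, ?_, ?_, ?_, ?_, ?_⟩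
  · ext F t
    rw [Ush_pow_apply]
    simp
  · intro x
    rw [hJ, hJ]
    exact com x
  · intro n hn x y
    rw [hJ, hJ]
    exact (h2 k b m hk hb H U n hn).1 x y
  · intro n hmn hn F
    exact g1 k b m hk hb H U D hL n hmn hn F
  · intro n hn c₁ hc hx F
    exact g2 k b m hk hb H U D hL n hn c₁ hc hx F
  · intro n hn g hg hx F
    exact g3 k b m hk hb H U D hL n hn g hg hx F
  · intro hm1 x
    rw [hJ]
    exact g4 k b m hk hb H U D hL hm1 x

end Pool.Agent.W863.PB
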